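import Pool.Agent.H.MP_3adc02_co.fs.Def
import Pool.Agent.H.MP_3adc02_co.helper68.Fin3

/-!
# Few sources and sinks, module Base: few odd points
-/

set_option linter.unusedSectionVars false

namespace Pool.Agent.Dj3

open Finset Pool.Agent.Dj Pool.Agent.Dj2

variable {V : Type} [Fintype V] [DecidableEq V]

/-- PROOF. `(od x).card` is even (`sum_par x univ`), so it is at most `2 ^ (a + 2)`. Let
`K = L.filter (fun X => X.Nonempty ∧ X ≠ univ)`; it is crossing, separating, `Fe K (2 * k) x`. By `dk_all` and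
`list_graph` (see `splitting_sep` in helper68/Fin3.lean) there is a graph with `2 ∣ dg v - x v` for all `v` and
`sp Z ≤ x(Z) - 2 k` for `Z ∈ K`; make it a list with `to_list`; parity of the cuts by `ls_par`. -/
theorem base {L : Finset (Finset V)} (hL : Rg L) (hs : Sep L) (a k : ℕ) (hk : 2 ^ a ≤ k)
    {x : V → ℤ} (hx : Fr L (2 * k) x) (h : (od x).card ≤ 2 ^ (a + 2) + 1) : Gr L (2 * k) x := by
  have hKm : ∀ X, X ∈ L.filter (fun X => X.Nonempty ∧ X ≠ univ) ↔
      X ∈ L ∧ X.Nonempty ∧ X ≠ univ := fun X => mem_filter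
  obtain ⟨K, hKd⟩ : ∃ K, K = L.filter (fun X => X.Nonempty ∧ X ≠ univ) := ⟨_, rfl⟩
  rw [← hKd] at hKm
  have hK : Cross K :=
    { ne := fun X hX => ((hKm X).1 hX).2.1
      ne' := fun X hX => ((hKm X).1 hX).2.2
      cap := fun X hX Y hY hne hun => by
        obtain ⟨hX1, hX2, hX3⟩ := (hKm X).1 hX
        obtain ⟨hY1, hY2, hY3⟩ := (hKm Y).1 hY
        refine (hKm _).2 ⟨hL.cap X hX1 Y hY1, hne, fun he => hX3 ?_⟩
        exact univ_subset_iff.1 (he ▸ inter_subset_left)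
      cup := fun X hX Y hY hne hun => by
        obtain ⟨hX1, hX2, hX3⟩ := (hKm X).1 hX
        obtain ⟨hY1, hY2, hY3⟩ := (hKm Y).1 hY
        exact (hKm _).2 ⟨hL.cup X hX1 Y hY1, hX2.mono subset_union_left, hun⟩ }
  have hsK : Sep K := by
    intro u v huv
    refine hs u v fun X hX => ?_
    rcases X.eq_empty_or_nonempty with h0 | h0
    · subst h0
      exact ⟨fun h1 => absurd h1 (notMem_empty _), fun h1 => absurd h1 (notMem_empty _)⟩
    · by_cases h1 : X = univ
      · subst h1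
        exact ⟨fun _ => mem_univ _, fun _ => mem_univ _⟩
      · exact huv X ((hKm X).2 ⟨hX, h0, h1⟩)
  have hFe : Fe K (2 * k) x := by
    refine ⟨hx.1, fun X hX => ?_⟩
    obtain ⟨hX1, hX2, hX3⟩ := (hKm X).1 hX
    exact hx.2 X hX1 hX2 hX3
  have hpar := sum_par x univ
  rw [hx.1, univ_inter] at hpar
  have h2 : 2 * 2 ^ (a + 1) = 2 ^ (a + 2) := by rw [pow_succ 2 (a + 1)]; ring
  have hcard : (od x).card ≤ 2 * 2 ^ (a + 1) := by
    rw [← h2] at h
    omega
  obtain ⟨l, hl1, hl2, hl3⟩ := dk_all hK hsK a k hk x hFe fun v =>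
    (card_le_card inter_subset_right).trans hcard
  obtain ⟨κ, hκ, I, p, q, h3, h4⟩ := list_graph hK l hl2
  obtain ⟨G, h5, h6⟩ := to_list I p q
  refine ⟨G, fun X _ => ?_, fun X hX hX1 hX2 => ?_⟩
  · have h7 : (2 : ℤ) ∣ ∑ v ∈ X, (ld G v - x v) := by
      refine dvd_sum fun v _ => ?_
      rw [h6, ← hl3]
      exact h3 v
    rw [sum_sub_distrib] at h7
    have h8 := dvd_add (ls_par G X) h7
    rwa [sub_add_sub_cancel] at h8
  · have h7 := h4 X ((hKm X).2 ⟨hX, hX1, hX2⟩)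
    rw [hl1, hl3] at h7
    rw [h5]
    exact h7

end Pool.Agent.Dj3
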