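import Pool.Agent.H.MP_3adc02_co.helper68.Kl
import Pool.Agent.H.MP_3adc02_co.Red

/-!
# Few sources and sinks: ring families, graphs given by lists of pairs

`L` is a ring family of subsets of `V` (closed under union and intersection, containing `∅` and `univ`).
-/

set_option linter.unusedSectionVars false

namespace Pool.Agent.Dj3

open Finset Pool.Agent.Dj Pool.Agent.Dj2

variable {V : Type} [Fintype V] [DecidableEq V]

/-- a ring family of subsets of `V` -/
structure Rg (L : Finset (Finset V)) : Prop where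
  bot : ∅ ∈ L
  top : univ ∈ L
  cap : ∀ X ∈ L, ∀ Y ∈ L, X ∩ Y ∈ L
  cup : ∀ X ∈ L, ∀ Y ∈ L, X ∪ Y ∈ L

/-- `x` has sum zero, and sum at least `n` on every nontrivial member of `L` -/
def Fr (L : Finset (Finset V)) (n : ℤ) (x : V → ℤ) : Prop :=
  ∑ v, x v = 0 ∧ ∀ X ∈ L, X.Nonempty → X ≠ univ → n ≤ ∑ v ∈ X, x v

/-- number of the pairs in the list `G` separated by `X` -/
def ls (G : List (V × V)) (X : Finset V) : ℤ := (G.map fun e => |ind X e.1 - ind X e.2|).sum

/-- degree of `v` in the list `G` -/
def ld (G : List (V × V)) (v : V) : ℤ := (G.map fun e => ind {v} e.1 + ind {v} e.2).sum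

/-- there is a graph (list of pairs) whose cuts have the parity of `x` on `L` and size at most `x(X) - n` on the
nontrivial members of `L` -/
def Gr (L : Finset (Finset V)) (n : ℤ) (x : V → ℤ) : Prop :=
  ∃ G : List (V × V), (∀ X ∈ L, (2 : ℤ) ∣ ls G X - ∑ v ∈ X, x v) ∧
    ∀ X ∈ L, X.Nonempty → X ≠ univ → ls G X ≤ ∑ v ∈ X, x v - n

/-- the points below `u`: the smallest member of `L` which contains `u` -/
def dn (L : Finset (Finset V)) (u : V) : Finset V := univ.filter fun v => ∀ X ∈ L, u ∈ X → v ∈ X

theorem mem_dn {L : Finset (Finset V)} {u v : V} : v ∈ dn L u ↔ ∀ X ∈ L, u ∈ X → v ∈ X := by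
  unfold dn
  rw [mem_filter]
  exact ⟨And.right, fun h => ⟨mem_univ _, h⟩⟩

theorem self_dn (L : Finset (Finset V)) (u : V) : u ∈ dn L u := mem_dn.2 fun _ _ h => h

theorem dn_sub {L : Finset (Finset V)} {X : Finset V} (hX : X ∈ L) {u : V} (hu : u ∈ X) :
    dn L u ⊆ X := fun _ hv => mem_dn.1 hv X hX hu

theorem dn_trans {L : Finset (Finset V)} {u v w : V} (h1 : u ∈ dn L v) (h2 : v ∈ dn L w) :
    u ∈ dn L w := mem_dn.2 fun X hX hw => mem_dn.1 h1 X hX (mem_dn.1 h2 X hX hw)

/-- a union of members indexed by a finite set is a member -/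
theorem Rg.biUnion {L : Finset (Finset V)} (h : Rg L) {ι : Type} [DecidableEq ι] (I : Finset ι)
    (F : ι → Finset V) (hF : ∀ i ∈ I, F i ∈ L) : I.biUnion F ∈ L := by
  induction I using Finset.induction_on with
  | empty => rw [Finset.biUnion_empty]; exact h.bot
  | insert a s _ ih =>
    rw [Finset.biUnion_insert]
    exact h.cup _ (hF a (mem_insert_self _ _)) _ (ih fun i hi => hF i (mem_insert_of_mem hi))

theorem dn_mem {L : Finset (Finset V)} (h : Rg L) (u : V) : dn L u ∈ L := by
  have key : ∀ M : Finset (Finset V), M ⊆ L →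
      (univ.filter fun v => ∀ X ∈ M, u ∈ X → v ∈ X) ∈ L := by
    intro M
    induction M using Finset.induction_on with
    | empty =>
      intro _
      have : (univ.filter fun v : V => ∀ X ∈ (∅ : Finset (Finset V)), u ∈ X → v ∈ X) = univ := by
        ext v; simp
      rw [this]; exact h.top
    | insert Y M _ ih =>
      intro hM
      have h1 := ih fun X hX => hM (mem_insert_of_mem hX)
      by_cases hu : u ∈ Y
      · have : (univ.filter fun v : V => ∀ X ∈ insert Y M, u ∈ X → v ∈ X) =
            (univ.filter fun v => ∀ X ∈ M, u ∈ X → v ∈ X) ∩ Y := by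
          ext v
          simp only [mem_filter, mem_univ, true_and, mem_insert, mem_inter, forall_eq_or_imp]
          constructor
          · rintro ⟨h2, h3⟩; exact ⟨h3, h2 hu⟩
          · rintro ⟨h2, h3⟩; exact ⟨fun _ => h3, h2⟩
        rw [this]
        exact h.cap _ h1 _ (hM (mem_insert_self _ _))
      · have : (univ.filter fun v : V => ∀ X ∈ insert Y M, u ∈ X → v ∈ X) =
            (univ.filter fun v => ∀ X ∈ M, u ∈ X → v ∈ X) := by
          ext v
          simp only [mem_filter, mem_univ, true_and, mem_insert, forall_eq_or_imp]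
          exact ⟨fun h2 => h2.2, fun h2 => ⟨fun h3 => absurd h3 hu, h2⟩⟩
        rw [this]
        exact h1
  exact key L subset_rfl

/-- `L` separates points (then it is the family of the down-sets of a partial order) -/
theorem dn_antisymm {L : Finset (Finset V)} (hs : Sep L) {u v : V} (h1 : u ∈ dn L v)
    (h2 : v ∈ dn L u) : u = v :=
  hs u v fun X hX => ⟨fun h => mem_dn.1 h2 X hX h, fun h => mem_dn.1 h1 X hX h⟩

/-- the points strictly below `u` -/
theorem st_mem {L : Finset (Finset V)} (h : Rg L) (hs : Sep L) (u : V) :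
    (dn L u).erase u ∈ L := by
  have : (dn L u).erase u = ((dn L u).erase u).biUnion (dn L) := by
    ext v
    rw [mem_biUnion]
    constructor
    · exact fun hv => ⟨v, hv, self_dn L v⟩
    · rintro ⟨w, hw, hv⟩
      obtain ⟨h1, h2⟩ := mem_erase.1 hw
      refine mem_erase.2 ⟨?_, dn_trans hv h2⟩
      rintro rfl
      exact h1 (dn_antisymm hs h2 hv)
  rw [this]
  exact h.biUnion _ _ fun i _ => dn_mem h i

/-! ### lists of pairs -/

omit [Fintype V] in
theorem ls_nil (X : Finset V) : ls ([] : List (V × V)) X = 0 := rfl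

omit [Fintype V] in
theorem ls_cons (e : V × V) (G : List (V × V)) (X : Finset V) :
    ls (e :: G) X = |ind X e.1 - ind X e.2| + ls G X := by
  unfold ls
  rw [List.map_cons, List.sum_cons]

omit [Fintype V] in
theorem ls_append (G H : List (V × V)) (X : Finset V) : ls (G ++ H) X = ls G X + ls H X := by
  unfold ls
  rw [List.map_append, List.sum_append]

omit [Fintype V] in
theorem ls_nonneg (G : List (V × V)) (X : Finset V) : 0 ≤ ls G X := by
  induction G with
  | nil => exact le_rfl
  | cons e G ih => rw [ls_cons]; exact add_nonneg (abs_nonneg _) ih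

omit [Fintype V] in
theorem ls_empty (G : List (V × V)) : ls G ∅ = 0 := by
  induction G with
  | nil => rfl
  | cons e G ih =>
    rw [ls_cons, ih]
    simp [ind]

theorem ls_univ (G : List (V × V)) : ls G univ = 0 := by
  induction G with
  | nil => rfl
  | cons e G ih =>
    rw [ls_cons, ih]
    simp [ind]

theorem ls_compl (G : List (V × V)) (X : Finset V) : ls G Xᶜ = ls G X := by
  induction G with
  | nil => rfl
  | cons e G ih =>
    rw [ls_cons, ls_cons, ih, ind_compl, ind_compl, abs_sub_comm]
    congr 2; ring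

omit [Fintype V] in
theorem ld_cons (e : V × V) (G : List (V × V)) (v : V) :
    ld (e :: G) v = ind {v} e.1 + ind {v} e.2 + ld G v := by
  unfold ld
  rw [List.map_cons, List.sum_cons]

omit [Fintype V] in
theorem ld_nonneg (G : List (V × V)) (v : V) : 0 ≤ ld G v := by
  induction G with
  | nil => exact le_rfl
  | cons e G ih =>
    rw [ld_cons]
    have h1 := ind_nonneg {v} e.1
    have h2 := ind_nonneg {v} e.2
    linarith

omit [Fintype V] in
/-- parity of a cut -/
theorem ls_par (G : List (V × V)) (X : Finset V) : (2 : ℤ) ∣ ls G X - ∑ v ∈ X, ld G v := by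
  induction G with
  | nil => simp [ls, ld]
  | cons e G ih =>
    have h1 : ∑ v ∈ X, ld (e :: G) v = ind X e.1 + ind X e.2 + ∑ v ∈ X, ld G v := by
      simp only [ld_cons, Finset.sum_add_distrib, sum_ind_singleton]
    rw [ls_cons, h1]
    have h2 : (2 : ℤ) ∣ |ind X e.1 - ind X e.2| - (ind X e.1 + ind X e.2) := by
      unfold ind
      split_ifs <;> norm_num
    have h3 := dvd_add h2 ih
    have h4 : |ind X e.1 - ind X e.2| - (ind X e.1 + ind X e.2) + (ls G X - ∑ v ∈ X, ld G v) =
        |ind X e.1 - ind X e.2| + ls G X - (ind X e.1 + ind X e.2 + ∑ v ∈ X, ld G v) := by ring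
    rwa [h4] at h3

omit [Fintype V] in
/-- adding a point changes a cut by at most the degree -/
theorem ls_insert (G : List (V × V)) (Y : Finset V) (u : V) :
    ls G Y ≤ ls G (insert u Y) + ld G u := by
  induction G with
  | nil => simp [ls, ld]
  | cons e G ih =>
    rw [ls_cons, ls_cons, ld_cons]
    have h2 : |ind Y e.1 - ind Y e.2| ≤
        |ind (insert u Y) e.1 - ind (insert u Y) e.2| + (ind {u} e.1 + ind {u} e.2) := by
      unfold ind
      simp only [mem_insert, mem_singleton]
      by_cases a1 : e.1 = u <;> by_cases a2 : e.2 = u <;> by_cases a3 : e.1 ∈ Y <;>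
        by_cases a4 : e.2 ∈ Y <;> simp [a1, a2, a3, a4] <;> (try split_ifs) <;> (try norm_num)
    linarith

/-- a graph with a general finite index set is a list of pairs -/
theorem to_list {κ : Type} (I : Finset κ) (p q : κ → V) :
    ∃ G : List (V × V), (∀ X, ls G X = sp I p q X) ∧ ∀ v, ld G v = dg I p q v := by
  refine ⟨I.toList.map fun i => (p i, q i), fun X => ?_, fun v => ?_⟩
  · unfold ls sp
    rw [List.map_map, ← Finset.sum_map_toList]
    rfl
  · unfold ld dg
    rw [List.map_map, ← Finset.sum_map_toList]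
    rfl

/-- a list of pairs is a graph with index set `Fin r` -/
theorem of_list (G : List (V × V)) :
    ∃ (r : ℕ) (I : Finset (Fin r)) (p q : Fin r → V),
      (∀ X, ls G X = sp I p q X) ∧ ∀ v, ld G v = dg I p q v := by
  refine ⟨G.length, univ, fun i => (G.get i).1, fun i => (G.get i).2, fun X => ?_, fun v => ?_⟩
  · unfold ls sp
    conv_lhs => rw [← List.ofFn_get G]
    rw [List.map_ofFn, List.sum_ofFn]
    rfl
  · unfold ld dg
    conv_lhs => rw [← List.ofFn_get G]
    rw [List.map_ofFn, List.sum_ofFn]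
    rfl

/-- reduction to degrees at most one -/
theorem lred (G : List (V × V)) :
    ∃ G' : List (V × V), (∀ v, (2 : ℤ) ∣ ld G' v - ld G v) ∧ (∀ v, ld G' v ≤ 1) ∧
      ∀ X, ls G' X ≤ ls G X := by
  obtain ⟨r, I, p, q, h1, h2⟩ := of_list G
  obtain ⟨I', p', q', h3, h4, h5⟩ := red I p q
  obtain ⟨G', h6, h7⟩ := to_list I' p' q'
  exact ⟨G', fun v => by rw [h7, h2]; exact h3 v, fun v => by rw [h7]; exact h4 v,
    fun X => by rw [h6, h1]; exact h5 X⟩

end Pool.Agent.Dj3
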