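import Pool.Agent.H.MP_3adc02_co.fs.Def

/-!
# Few sources and sinks, module Glue: gluing at a tight set
-/

set_option linter.unusedSectionVars false

namespace Pool.Agent.Dj3

open Finset Pool.Agent.Dj Pool.Agent.Dj2

variable {V : Type} [Fintype V] [DecidableEq V]

/-- the members of `L` which do not split the complement of `X` (contraction of `Xᶜ`) -/
def gA (L : Finset (Finset V)) (X : Finset V) : Finset (Finset V) := L.filter fun U => U ⊆ X ∨ Xᶜ ⊆ U

/-- the members of `L` which do not split `X` (contraction of `X`) -/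
def gB (L : Finset (Finset V)) (X : Finset V) : Finset (Finset V) :=
  L.filter fun U => X ⊆ U ∨ Disjoint U X

theorem rg_gA {L : Finset (Finset V)} (hL : Rg L) (X : Finset V) : Rg (gA L X) := by
  refine ⟨?_, ?_, ?_, ?_⟩
  · exact mem_filter.2 ⟨hL.bot, Or.inl (empty_subset _)⟩
  · exact mem_filter.2 ⟨hL.top, Or.inr (subset_univ _)⟩
  · intro A hA B hB
    obtain ⟨a1, a2⟩ := mem_filter.1 hA
    obtain ⟨b1, b2⟩ := mem_filter.1 hB
    refine mem_filter.2 ⟨hL.cap _ a1 _ b1, ?_⟩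
    rcases a2 with a2 | a2
    · exact Or.inl (inter_subset_left.trans a2)
    · rcases b2 with b2 | b2
      · exact Or.inl (inter_subset_right.trans b2)
      · exact Or.inr (subset_inter a2 b2)
  · intro A hA B hB
    obtain ⟨a1, a2⟩ := mem_filter.1 hA
    obtain ⟨b1, b2⟩ := mem_filter.1 hB
    refine mem_filter.2 ⟨hL.cup _ a1 _ b1, ?_⟩
    rcases a2 with a2 | a2
    · rcases b2 with b2 | b2
      · exact Or.inl (union_subset a2 b2)
      · exact Or.inr (b2.trans subset_union_right)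
    · exact Or.inr (a2.trans subset_union_left)

theorem rg_gB {L : Finset (Finset V)} (hL : Rg L) (X : Finset V) : Rg (gB L X) := by
  refine ⟨?_, ?_, ?_, ?_⟩
  · exact mem_filter.2 ⟨hL.bot, Or.inr (disjoint_empty_left _)⟩
  · exact mem_filter.2 ⟨hL.top, Or.inl (subset_univ _)⟩
  · intro A hA B hB
    obtain ⟨a1, a2⟩ := mem_filter.1 hA
    obtain ⟨b1, b2⟩ := mem_filter.1 hB
    refine mem_filter.2 ⟨hL.cap _ a1 _ b1, ?_⟩
    rcases a2 with a2 | a2
    · rcases b2 with b2 | b2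
      · exact Or.inl (subset_inter a2 b2)
      · exact Or.inr (b2.mono_left inter_subset_right)
    · exact Or.inr (a2.mono_left inter_subset_left)
  · intro A hA B hB
    obtain ⟨a1, a2⟩ := mem_filter.1 hA
    obtain ⟨b1, b2⟩ := mem_filter.1 hB
    refine mem_filter.2 ⟨hL.cup _ a1 _ b1, ?_⟩
    rcases a2 with a2 | a2
    · exact Or.inl (a2.trans subset_union_left)
    · rcases b2 with b2 | b2
      · exact Or.inl (b2.trans subset_union_right)
      · exact Or.inr (disjoint_union_left.2 ⟨a2, b2⟩)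

/-- PROOF. `Xᶜ` contains two points `y ≠ z`, by `hs` some `U ∈ L` contains exactly one of them, `U ∉ gA L X`. -/
theorem gA_card {L : Finset (Finset V)} (hs : Sep L) {X : Finset V} (h : 2 ≤ Xᶜ.card) :
    (gA L X).card < L.card := by
  obtain ⟨y, hy, z, hz, hyz⟩ := Finset.one_lt_card.1 (show 1 < Xᶜ.card by omega)
  have h1 : ¬ Sm L y z := fun h2 => hyz (hs y z h2)
  unfold Sm at h1
  push Not at h1
  obtain ⟨U, hU, hU2⟩ := h1
  refine Finset.card_lt_card ⟨filter_subset _ _, fun h3 => ?_⟩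
  obtain ⟨-, h4⟩ := mem_filter.1 (h3 hU)
  rw [mem_compl] at hy hz
  rcases h4 with h4 | h4
  · have a1 : y ∉ U := fun h5 => hy (h4 h5)
    have a2 : z ∉ U := fun h5 => hz (h4 h5)
    tauto
  · have a1 : y ∈ U := h4 (mem_compl.2 hy)
    have a2 : z ∈ U := h4 (mem_compl.2 hz)
    tauto

theorem gB_card {L : Finset (Finset V)} (hs : Sep L) {X : Finset V} (h : 2 ≤ X.card) :
    (gB L X).card < L.card := by
  obtain ⟨y, hy, z, hz, hyz⟩ := Finset.one_lt_card.1 (show 1 < X.card by omega)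
  have h1 : ¬ Sm L y z := fun h2 => hyz (hs y z h2)
  unfold Sm at h1
  push Not at h1
  obtain ⟨U, hU, hU2⟩ := h1
  refine Finset.card_lt_card ⟨filter_subset _ _, fun h3 => ?_⟩
  obtain ⟨-, h4⟩ := mem_filter.1 (h3 hU)
  rcases h4 with h4 | h4
  · have a1 : y ∈ U := h4 hy
    have a2 : z ∈ U := h4 hz
    tauto
  · have a1 : y ∉ U := fun h5 => Finset.disjoint_left.1 h4 h5 hy
    have a2 : z ∉ U := fun h5 => Finset.disjoint_left.1 h4 h5 hz
    tauto

omit [Fintype V] in
theorem glue_unsep {G : List (V × V)} {X : Finset V} (h : ls G X ≤ 0) :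
    ∀ e ∈ G, (e.1 ∈ X ↔ e.2 ∈ X) := by
  induction G with
  | nil => intro e he; simp at he
  | cons a G ih =>
    rw [ls_cons] at h
    have h1 := abs_nonneg (ind X a.1 - ind X a.2)
    have h2 := ls_nonneg G X
    have h3 : ind X a.1 - ind X a.2 = 0 := abs_eq_zero.1 (by linarith)
    intro e he
    rcases List.mem_cons.1 he with rfl | he
    · unfold ind at h3
      by_cases a1 : e.1 ∈ X <;> by_cases a2 : e.2 ∈ X <;> simp [a1, a2] at h3 ⊢
    · exact ih (by linarith) e he

omit [Fintype V] in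
theorem glue_in (G : List (V × V)) (X Y : Finset V) (h : ∀ e ∈ G, (e.1 ∈ X ↔ e.2 ∈ X)) :
    ls (G.filter fun e => e.1 ∈ X) Y = ls G (Y ∩ X) := by
  induction G with
  | nil => rfl
  | cons a G ih =>
    have h1 := ih fun e he => h e (List.mem_cons_of_mem _ he)
    have h2 := h a List.mem_cons_self
    by_cases a1 : a.1 ∈ X
    · have a2 := h2.1 a1
      rw [List.filter_cons_of_pos (by simpa using a1), ls_cons, ls_cons, h1]
      unfold ind
      simp [a1, a2]
    · have a2 : a.2 ∉ X := fun h3 => a1 (h2.2 h3)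
      rw [List.filter_cons_of_neg (by simpa using a1), ls_cons, h1]
      unfold ind
      simp [a1, a2]

omit [Fintype V] in
theorem glue_out (G : List (V × V)) (X Y : Finset V) (h : ∀ e ∈ G, (e.1 ∈ X ↔ e.2 ∈ X)) :
    ls (G.filter fun e => e.1 ∉ X) Y = ls G (Y ∪ X) := by
  induction G with
  | nil => rfl
  | cons a G ih =>
    have h1 := ih fun e he => h e (List.mem_cons_of_mem _ he)
    have h2 := h a List.mem_cons_self
    by_cases a1 : a.1 ∈ X
    · have a2 := h2.1 a1
      rw [List.filter_cons_of_neg (by simpa using a1), ls_cons, h1]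
      unfold ind
      simp [a1, a2]
    · have a2 : a.2 ∉ X := fun h3 => a1 (h2.2 h3)
      rw [List.filter_cons_of_pos (by simpa using a1), ls_cons, ls_cons, h1]
      unfold ind
      simp [a1, a2]

omit [Fintype V] in
theorem glue_both (G : List (V × V)) (X Y : Finset V) (h : ∀ e ∈ G, (e.1 ∈ X ↔ e.2 ∈ X)) :
    ls G Y = ls G (Y ∩ X) + ls G (Y ∪ X) := by
  induction G with
  | nil => rfl
  | cons a G ih =>
    have h1 := ih fun e he => h e (List.mem_cons_of_mem _ he)
    have h2 := h a List.mem_cons_self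
    rw [ls_cons, ls_cons, ls_cons, h1]
    have h3 : |ind Y a.1 - ind Y a.2| =
        |ind (Y ∩ X) a.1 - ind (Y ∩ X) a.2| + |ind (Y ∪ X) a.1 - ind (Y ∪ X) a.2| := by
      unfold ind
      by_cases a1 : a.1 ∈ X
      · have a2 := h2.1 a1
        simp [a1, a2]
      · have a2 : a.2 ∉ X := fun h3 => a1 (h2.2 h3)
        simp [a1, a2]
    rw [h3]
    ring

/-- PROOF. Let `G1`, `G2` be the two lists. `ls G1 X ≤ 0` and `ls G2 X ≤ 0` (`X ∈ gA L X`, `X ∈ gB L X`), so no pair
of `G1` or `G2` is separated by `X` (`e.1 ∈ X ↔ e.2 ∈ X`). Let `G = G1.filter (e.1 ∈ X) ++ G2.filter (e.1 ∉ X)`. For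
every `Y`: `ls G Y = ls G1 (Y ∩ X) + ls G2 (Y ∪ X)` (pair by pair; prove this for lists all of whose pairs are not
separated by `X`, by induction on the list). For `Y ∈ L`: `Y ∩ X ∈ gA L X`, `Y ∪ X ∈ gB L X`, and
`x(Y ∩ X) + x(Y ∪ X) = x(Y) + n` (`sum_cap_cup`), `n` even: this gives the parity. Bound, for `Y` nontrivial: if
`Y ∩ X = ∅` then `ls G1 ∅ = 0` and `ls G2 (Y ∪ X) = ls G2 Y ≤ x(Y) - n` as `Y ∈ gB L X`; if `Y ∪ X = univ` then
`ls G2 univ = 0` and `ls G1 (Y ∩ X) = ls G1 Y ≤ x(Y) - n` as `Y ∈ gA L X`; if both hold the sum is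
`0 ≤ x(Y) - n` by `hx`; otherwise the sum is at most `x(Y ∩ X) - n + x(Y ∪ X) - n = x(Y) - n`. -/
theorem glue {L : Finset (Finset V)} (hL : Rg L) {n : ℤ} (hn : 2 ∣ n) {x : V → ℤ} (hx : Fr L n x)
    {X : Finset V} (hX : X ∈ L) (h1 : X.Nonempty) (h2 : X ≠ univ) (ht : ∑ v ∈ X, x v = n)
    (hA : Gr (gA L X) n x) (hB : Gr (gB L X) n x) : Gr L n x := by
  obtain ⟨G1, p1, b1⟩ := hA
  obtain ⟨G2, p2, b2⟩ := hB
  have hXA : X ∈ gA L X := mem_filter.2 ⟨hX, Or.inl subset_rfl⟩
  have hXB : X ∈ gB L X := mem_filter.2 ⟨hX, Or.inl subset_rfl⟩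
  have u1 := glue_unsep (G := G1) (X := X) (by have := b1 X hXA h1 h2; linarith)
  have u2 := glue_unsep (G := G2) (X := X) (by have := b2 X hXB h1 h2; linarith)
  have hcap : ∀ Y ∈ L, Y ∩ X ∈ gA L X := fun Y hY =>
    mem_filter.2 ⟨hL.cap _ hY _ hX, Or.inl inter_subset_right⟩
  have hcup : ∀ Y ∈ L, Y ∪ X ∈ gB L X := fun Y hY =>
    mem_filter.2 ⟨hL.cup _ hY _ hX, Or.inl subset_union_right⟩
  have hs : ∀ Y : Finset V, ∑ v ∈ Y ∩ X, x v + ∑ v ∈ Y ∪ X, x v = ∑ v ∈ Y, x v + n := by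
    intro Y
    have := sum_cap_cup x Y X
    rw [this, ht]
  have hG : ∀ Y : Finset V, ls ((G1.filter fun e => e.1 ∈ X) ++ (G2.filter fun e => e.1 ∉ X)) Y =
      ls G1 (Y ∩ X) + ls G2 (Y ∪ X) := by
    intro Y
    rw [ls_append, glue_in G1 X Y u1, glue_out G2 X Y u2]
  refine ⟨(G1.filter fun e => e.1 ∈ X) ++ (G2.filter fun e => e.1 ∉ X), fun Y hY => ?_,
    fun Y hY hY1 hY2 => ?_⟩
  · rw [hG]
    have q1 := p1 _ (hcap Y hY)
    have q2 := p2 _ (hcup Y hY)
    have q3 := hs Y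
    omega
  · rw [hG]
    have q3 := hs Y
    by_cases c1 : Y ∩ X = ∅
    · by_cases c2 : Y ∪ X = univ
      · rw [c1, c2, ls_empty, ls_univ]
        have := hx.2 Y hY hY1 hY2
        linarith
      · have d1 : Y ∈ gB L X := mem_filter.2 ⟨hY, Or.inr (disjoint_iff_inter_eq_empty.2 c1)⟩
        have d2 := b2 Y d1 hY1 hY2
        have d3 := glue_both G2 X Y u2
        rw [c1, ls_empty, zero_add] at d3
        rw [c1, ls_empty, ← d3]
        linarith
    · by_cases c2 : Y ∪ X = univ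
      · have d1 : Y ∈ gA L X := mem_filter.2 ⟨hY, Or.inr fun v hv => by
          have h3 : v ∈ Y ∪ X := c2 ▸ mem_univ v
          rcases mem_union.1 h3 with h3 | h3
          · exact h3
          · exact absurd h3 (mem_compl.1 hv)⟩
        have d2 := b1 Y d1 hY1 hY2
        have d3 := glue_both G1 X Y u1
        rw [c2, ls_univ, add_zero] at d3
        rw [c2, ls_univ, ← d3]
        linarith
      · have e1 := b1 _ (hcap Y hY) (nonempty_iff_ne_empty.2 c1) (fun h => h2 (by
          rw [eq_univ_iff_forall] at h ⊢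
          exact fun v => (mem_inter.1 (h v)).2))
        have e2 := b2 _ (hcup Y hY) (h1.mono subset_union_right) c2
        linarith

end Pool.Agent.Dj3
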