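import Pool.Agent.H.MP_3adc02_co.fs.Def

/-!
# Few sources and sinks, module Rel: moving a unit, adding a relation
-/

set_option linter.unusedSectionVars false

namespace Pool.Agent.Dj3

open Finset Pool.Agent.Dj Pool.Agent.Dj2

variable {V : Type} [Fintype V] [DecidableEq V]

/-- one unit is moved from `p` to `q` -/
def mv (x : V → ℤ) (p q : V) (v : V) : ℤ := x v - ind {v} p + ind {v} q

/-- PROOF. `sum_ind_singleton`. -/
theorem sum_mv (x : V → ℤ) (p q : V) (X : Finset V) :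
    ∑ v ∈ X, mv x p q v = ∑ v ∈ X, x v - ind X p + ind X q := by
  unfold mv
  rw [Finset.sum_add_distrib, Finset.sum_sub_distrib, sum_ind_singleton, sum_ind_singleton]

omit [Fintype V] in
private theorem rel_le {X : Finset V} {p q : V} (h : q ∈ X → p ∈ X) : ind X q ≤ ind X p := by
  by_cases hq : q ∈ X
  · rw [ind_of_mem hq, ind_of_mem (h hq)]
  · rw [ind_of_not_mem hq]
    exact ind_nonneg X p

/-- PROOF. `sum_mv`; a member `X` with `q ∈ X` contains `p`. -/
theorem fr_mv {L : Finset (Finset V)} {n : ℤ} {x : V → ℤ} (hx : Fr L n x) {p q : V}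
    (hpq : p ∈ dn L q) (h : ∀ X ∈ L, X.Nonempty → X ≠ univ → p ∈ X → q ∉ X → ∑ v ∈ X, x v ≠ n) :
    Fr L n (mv x p q) := by
  refine ⟨?_, fun X hX h1 h2 => ?_⟩
  · rw [sum_mv, hx.1, ind_of_mem (mem_univ p), ind_of_mem (mem_univ q)]
    norm_num
  · rw [sum_mv]
    have h3 := hx.2 X hX h1 h2
    by_cases hq : q ∈ X
    · rw [ind_of_mem hq, ind_of_mem (mem_dn.1 hpq X hX hq)]
      linarith
    · by_cases hp : p ∈ X
      · have h4 := h X hX h1 h2 hp hq
        rw [ind_of_not_mem hq, ind_of_mem hp]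
        omega
      · rw [ind_of_not_mem hq, ind_of_not_mem hp]
        linarith

/-- PROOF. Add the pair `(p, q)` to the list. -/
theorem gr_mv {L : Finset (Finset V)} {n : ℤ} {x : V → ℤ} {p q : V} (hpq : p ∈ dn L q)
    (h : Gr L n (mv x p q)) : Gr L n x := by
  obtain ⟨G, h1, h2⟩ := h
  have key : ∀ X ∈ L, |ind X p - ind X q| = ind X p - ind X q := fun X hX =>
    abs_of_nonneg (sub_nonneg.2 (rel_le fun hq => mem_dn.1 hpq X hX hq))
  refine ⟨(p, q) :: G, fun X hX => ?_, fun X hX h3 h4 => ?_⟩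
  · have h5 := h1 X hX
    rw [sum_mv] at h5
    rw [ls_cons]
    show (2 : ℤ) ∣ |ind X p - ind X q| + ls G X - ∑ v ∈ X, x v
    rw [key X hX]
    have h6 : ind X p - ind X q + ls G X - ∑ v ∈ X, x v =
        ls G X - (∑ v ∈ X, x v - ind X p + ind X q) := by ring
    rw [h6]
    exact h5
  · have h5 := h2 X hX h3 h4
    rw [sum_mv] at h5
    rw [ls_cons]
    show |ind X p - ind X q| + ls G X ≤ _
    rw [key X hX]
    linarith

/-- the measure -/
def ms (L : Finset (Finset V)) (x : V → ℤ) : ℤ := ∑ X ∈ L, ∑ v ∈ X, x v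

/-- PROOF. Each summand is `0` (for `∅` and `univ`) or at least `n`. -/
theorem ms_nonneg {L : Finset (Finset V)} {n : ℤ} (hn : 0 ≤ n) {x : V → ℤ} (hx : Fr L n x) :
    0 ≤ ms L x := by
  unfold ms
  refine Finset.sum_nonneg fun X hX => ?_
  by_cases h1 : X.Nonempty
  · by_cases h2 : X = univ
    · rw [h2, hx.1]
    · exact hn.trans (hx.2 X hX h1 h2)
  · rw [Finset.not_nonempty_iff_eq_empty.1 h1, Finset.sum_empty]

/-- PROOF. `sum_mv`: each summand does not increase; by `hs` some member contains `p` and not `q`. -/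
theorem ms_mv {L : Finset (Finset V)} (hs : Sep L) (x : V → ℤ) {p q : V} (hpq : p ∈ dn L q)
    (hne : p ≠ q) : ms L (mv x p q) < ms L x := by
  unfold ms
  refine Finset.sum_lt_sum (fun X hX => ?_) ?_
  · rw [sum_mv]
    have := rel_le (X := X) (p := p) (q := q) fun hq => mem_dn.1 hpq X hX hq
    linarith
  · by_contra hc
    push Not at hc
    refine hne (hs p q fun X hX => ⟨fun hp => ?_, fun hq => mem_dn.1 hpq X hX hq⟩)
    by_contra hq
    have h1 := hc X hX
    rw [sum_mv, ind_of_mem hp, ind_of_not_mem hq] at h1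
    linarith

/-- the relation `u ≤ w` is added -/
def rl (L : Finset (Finset V)) (u w : V) : Finset (Finset V) := L.filter fun Y => w ∈ Y → u ∈ Y

theorem rel_mem {L : Finset (Finset V)} {u w : V} {Y : Finset V} :
    Y ∈ rl L u w ↔ Y ∈ L ∧ (w ∈ Y → u ∈ Y) := by
  unfold rl
  rw [mem_filter]

theorem rg_rl {L : Finset (Finset V)} (hL : Rg L) (u w : V) : Rg (rl L u w) := by
  refine ⟨rel_mem.2 ⟨hL.bot, fun h => absurd h (notMem_empty w)⟩,
    rel_mem.2 ⟨hL.top, fun _ => mem_univ u⟩, fun X hX Y hY => ?_, fun X hX Y hY => ?_⟩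
  · obtain ⟨h1, h2⟩ := rel_mem.1 hX
    obtain ⟨h3, h4⟩ := rel_mem.1 hY
    refine rel_mem.2 ⟨hL.cap X h1 Y h3, fun h => ?_⟩
    rw [mem_inter] at h ⊢
    exact ⟨h2 h.1, h4 h.2⟩
  · obtain ⟨h1, h2⟩ := rel_mem.1 hX
    obtain ⟨h3, h4⟩ := rel_mem.1 hY
    refine rel_mem.2 ⟨hL.cup X h1 Y h3, fun h => ?_⟩
    rw [mem_union] at h ⊢
    exact h.imp h2 h4

/-- PROOF. `dn L w ∈ L` (`dn_mem`) is not in `rl L u w`. -/
theorem rl_card {L : Finset (Finset V)} (hL : Rg L) {u w : V} (h : u ∉ dn L w) :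
    (rl L u w).card < L.card := by
  refine Finset.card_lt_card ⟨fun Y hY => (rel_mem.1 hY).1, fun hc => ?_⟩
  exact h ((rel_mem.1 (hc (dn_mem hL w))).2 (self_dn L w))

/-- PROOF. Let `G` be the list for `rl L u w`, replace it by `G'` of `lred` (parities of degrees unchanged, cuts not
larger, degrees at most one). The parity of the cuts of `G'` on `rl L u w` is that of `x` (`ls_par` twice).
`dn L u` and `(dn L u).erase u` are in `L` (`dn_mem`, `st_mem`), both in `rl L u w` (for the second one by `h3`), so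
`ld G' u ≡ x u` mod 2. Let `Y ∈ L`. If `Y ∈ rl L u w` nothing is to be done. Otherwise `w ∈ Y`, `u ∉ Y`; as
`(dn L u).erase u ⊆ dn L w ⊆ Y` we have `insert u Y = Y ∪ dn L u ∈ L`, and it is in `rl L u w`.
Parity: `ls G' Y ≡ ∑_Y ld = ∑_(insert u Y) ld - ld u ≡ x(insert u Y) - x u = x(Y)`.
Bound: `ls G' Y ≤ ls G' (insert u Y) + ld G' u` (`ls_insert`). If `insert u Y ≠ univ` this is at most
`x(Y) + x u - n + ld G' u`, and `x u + ld G' u ≤ 0` (`ld G' u ≤ 1`, `x u ≤ 0`, same parity). If `insert u Y = univ`: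
`ls G' univ = 0`, `x(Y) = - x u ≥ n` by `hx`; if `ld G' u ≤ 0` fine, otherwise `ld G' u = 1`, `x u` is odd, `n` even, so
`- x u - n ≥ 1`. -/
theorem gr_rl {L : Finset (Finset V)} (hL : Rg L) (hs : Sep L) {n : ℤ} (hn : 2 ∣ n) {x : V → ℤ}
    (hx : Fr L n x) {u w : V} (hu : x u ≤ 0) (h1 : (dn L u).erase u ⊆ dn L w) (h2 : u ∉ dn L w)
    (h3 : w ∉ dn L u) (h : Gr (rl L u w) n x) : Gr L n x := by
  obtain ⟨G, g1, g2⟩ := h
  obtain ⟨G', r1, r2, r3⟩ := lred G
  have hpar : ∀ X ∈ rl L u w, (2 : ℤ) ∣ ∑ v ∈ X, ld G' v - ∑ v ∈ X, x v := by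
    intro X hX
    have a1 := g1 X hX
    have a2 := ls_par G X
    have a3 : (2 : ℤ) ∣ ∑ v ∈ X, (ld G' v - ld G v) := Finset.dvd_sum fun v _ => r1 v
    rw [Finset.sum_sub_distrib] at a3
    omega
  have hpar2 : ∀ X ∈ rl L u w, (2 : ℤ) ∣ ls G' X - ∑ v ∈ X, x v := by
    intro X hX
    have a1 := hpar X hX
    have a2 := ls_par G' X
    omega
  have hD : dn L u ∈ rl L u w := rel_mem.2 ⟨dn_mem hL u, fun _ => self_dn L u⟩
  have hE : (dn L u).erase u ∈ rl L u w :=
    rel_mem.2 ⟨st_mem hL hs u, fun hw => absurd (mem_erase.1 hw).2 h3⟩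
  have hdu : (2 : ℤ) ∣ ld G' u - x u := by
    have a1 := hpar _ hD
    have a2 := hpar _ hE
    rw [← Finset.add_sum_erase _ (ld G') (self_dn L u), ← Finset.add_sum_erase _ x (self_dn L u)]
      at a1
    omega
  have hld := r2 u
  have hins : ∀ Y ∈ L, Y ∉ rl L u w → u ∉ Y ∧ insert u Y ∈ rl L u w := by
    intro Y hY hn'
    rw [rel_mem] at hn'
    push Not at hn'
    obtain ⟨hw, hu'⟩ := hn' hY
    refine ⟨hu', rel_mem.2 ⟨?_, fun _ => mem_insert_self _ _⟩⟩
    have : insert u Y = Y ∪ dn L u := by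
      ext v
      rw [mem_insert, mem_union]
      constructor
      · rintro (rfl | hv)
        · exact Or.inr (self_dn L v)
        · exact Or.inl hv
      · rintro (hv | hv)
        · exact Or.inr hv
        · by_cases hvu : v = u
          · exact Or.inl hvu
          · exact Or.inr (dn_sub hY hw (h1 (mem_erase.2 ⟨hvu, hv⟩)))
    rw [this]
    exact hL.cup Y hY _ (dn_mem hL u)
  refine ⟨G', fun Y hY => ?_, fun Y hY hne hnu => ?_⟩
  · by_cases hr : Y ∈ rl L u w
    · exact hpar2 Y hr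
    · obtain ⟨hu', hi⟩ := hins Y hY hr
      have a1 := hpar _ hi
      have a2 := ls_par G' Y
      rw [Finset.sum_insert hu', Finset.sum_insert hu'] at a1
      omega
  · by_cases hr : Y ∈ rl L u w
    · exact (r3 Y).trans (g2 Y hr hne hnu)
    · obtain ⟨hu', hi⟩ := hins Y hY hr
      have a1 := ls_insert G' Y u
      by_cases hu2 : insert u Y = univ
      · rw [hu2, ls_univ] at a1
        have a2 : ∑ v ∈ insert u Y, x v = 0 := by rw [hu2]; exact hx.1
        rw [Finset.sum_insert hu'] at a2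
        have a3 := hx.2 Y hY hne hnu
        omega
      · have a2 := (r3 _).trans (g2 _ hi (insert_nonempty u Y) hu2)
        rw [Finset.sum_insert hu'] at a2
        omega

end Pool.Agent.Dj3
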