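import Pool.Agent.H.MP_3adc02_co.fs.Def

/-!
# Few sources and sinks, module Term: duality, the final structure
-/

set_option linter.unusedSectionVars false

namespace Pool.Agent.Dj3

open Finset Pool.Agent.Dj Pool.Agent.Dj2

variable {V : Type} [Fintype V] [DecidableEq V]

/-- the complements of the members -/
def cp (L : Finset (Finset V)) : Finset (Finset V) := L.image fun X => Xᶜ

theorem mem_cp {L : Finset (Finset V)} {X : Finset V} : X ∈ cp L ↔ Xᶜ ∈ L := by
  unfold cp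
  rw [mem_image]
  constructor
  · rintro ⟨Y, hY, rfl⟩
    rwa [compl_compl]
  · intro h
    exact ⟨Xᶜ, h, compl_compl X⟩

theorem cp_cp (L : Finset (Finset V)) : cp (cp L) = L := by
  ext X
  rw [mem_cp, mem_cp, compl_compl]

theorem rg_cp {L : Finset (Finset V)} (hL : Rg L) : Rg (cp L) where
  bot := by
    rw [mem_cp, compl_empty]
    exact hL.top
  top := by
    rw [mem_cp, compl_univ]
    exact hL.bot
  cap := fun X hX Y hY => by
    rw [mem_cp] at hX hY ⊢
    rw [compl_inter]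
    exact hL.cup _ hX _ hY
  cup := fun X hX Y hY => by
    rw [mem_cp] at hX hY ⊢
    rw [compl_union]
    exact hL.cap _ hX _ hY

theorem card_cp (L : Finset (Finset V)) : (cp L).card = L.card :=
  card_image_of_injective _ compl_injective

theorem sep_cp {L : Finset (Finset V)} (hs : Sep L) : Sep (cp L) := by
  intro u v h
  apply hs
  intro X hX
  have h1 := h Xᶜ (mem_cp.2 (by rwa [compl_compl]))
  rw [mem_compl, mem_compl] at h1
  exact not_iff_not.1 h1

theorem mem_dn_cp {L : Finset (Finset V)} {u v : V} : u ∈ dn (cp L) v ↔ v ∈ dn L u := by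
  rw [mem_dn, mem_dn]
  constructor
  · intro h X hX hu
    by_contra hv
    have h1 := h Xᶜ (mem_cp.2 (by rwa [compl_compl])) (mem_compl.2 hv)
    exact mem_compl.1 h1 hu
  · intro h X hX hv
    by_contra hu
    have h1 := h Xᶜ (mem_cp.1 hX) (mem_compl.2 hu)
    exact mem_compl.1 h1 hv

private theorem Term_sum_compl {x : V → ℤ} (h0 : ∑ v, x v = 0) (X : Finset V) :
    ∑ v ∈ X, x v = ∑ v ∈ Xᶜ, - x v := by
  have h1 := sum_add_sum_compl X x
  rw [sum_neg_distrib]
  linarith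

private theorem Term_compl_ne {X : Finset V} (h : X ≠ univ) : (Xᶜ).Nonempty := by
  rw [nonempty_iff_ne_empty]
  intro h1
  exact h (compl_eq_empty_iff X |>.1 h1)

private theorem Term_compl_ne_univ {X : Finset V} (h : X.Nonempty) : Xᶜ ≠ univ := by
  intro h1
  rw [compl_eq_univ_iff] at h1
  exact h.ne_empty h1

theorem fr_cp {L : Finset (Finset V)} {n : ℤ} {x : V → ℤ} (hx : Fr L n x) :
    Fr (cp L) n (fun v => - x v) := by
  obtain ⟨h0, h1⟩ := hx
  refine ⟨by rw [sum_neg_distrib, h0, neg_zero], fun X hX hn hu => ?_⟩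
  have h2 := h1 Xᶜ (mem_cp.1 hX) (Term_compl_ne hu) (Term_compl_ne_univ hn)
  rwa [Term_sum_compl h0, compl_compl] at h2

/-- PROOF. The same list; `ls_compl`, and `∑_(Xᶜ) (-x) = ∑_X x` since `∑ x = 0`. -/
theorem gr_cp {L : Finset (Finset V)} {n : ℤ} {x : V → ℤ} (h0 : ∑ v, x v = 0)
    (h : Gr (cp L) n (fun v => - x v)) : Gr L n x := by
  obtain ⟨G, h1, h2⟩ := h
  refine ⟨G, fun X hX => ?_, fun X hX hn hu => ?_⟩
  · have h3 := h1 Xᶜ (mem_cp.2 (by rwa [compl_compl]))
    rwa [ls_compl, ← Term_sum_compl h0] at h3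
  · have h3 := h2 Xᶜ (mem_cp.2 (by rwa [compl_compl])) (Term_compl_ne hu) (Term_compl_ne_univ hn)
    rwa [ls_compl, ← Term_sum_compl h0] at h3

/-- the final structure: nontrivial tight sets are single points or complements of single points, comparable pairs
are separated by tight sets, and no relation can be added -/
structure Fin3 (L : Finset (Finset V)) (n : ℤ) (x : V → ℤ) : Prop where
  H1 : ∀ X ∈ L, X.Nonempty → X ≠ univ → ∑ v ∈ X, x v = n → X.card ≤ 1 ∨ Xᶜ.card ≤ 1
  H2 : ∀ p q, p ∈ dn L q → p ≠ q → ∃ X ∈ L, p ∈ X ∧ q ∉ X ∧ ∑ v ∈ X, x v = n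
  H3 : ∀ u w, x u ≤ 0 → u ∉ dn L w → w ∉ dn L u → ¬ (dn L u).erase u ⊆ dn L w
  H4 : ∀ u w, 0 ≤ x u → w ∉ dn L u → u ∉ dn L w → ¬ (dn (cp L) u).erase u ⊆ dn (cp L) w

/-- PROOF. `mem_dn_cp`, `cp_cp`, sums over complements. -/
theorem Fin3.cp {L : Finset (Finset V)} {n : ℤ} {x : V → ℤ} (h0 : ∑ v, x v = 0) (h : Fin3 L n x) :
    Fin3 (cp L) n (fun v => - x v) where
  H1 := fun X hX hn hu hs => by
    have h1 := h.H1 Xᶜ (mem_cp.1 hX) (Term_compl_ne hu) (Term_compl_ne_univ hn)
      (by rw [Term_sum_compl h0, compl_compl]; exact hs)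
    rw [compl_compl] at h1
    exact h1.symm
  H2 := fun p q hp hpq => by
    obtain ⟨X, hX, h1, h2, h3⟩ := h.H2 q p (mem_dn_cp.1 hp) hpq.symm
    refine ⟨Xᶜ, mem_cp.2 (by rwa [compl_compl]), mem_compl.2 h2, ?_, ?_⟩
    · rw [mem_compl, not_not]
      exact h1
    · rw [← Term_sum_compl h0]
      exact h3
  H3 := fun u w h1 h2 h3 => by
    rw [mem_dn_cp] at h2 h3
    exact h.H4 u w (by linarith) h2 h3
  H4 := fun u w h1 h2 h3 => by
    rw [mem_dn_cp] at h2 h3
    rw [cp_cp]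
    exact h.H3 u w (by linarith) h2 h3

/-- PROOF. Let `v` be odd with `x v < 0`. If `p ∈ (dn L v).erase v` then by H2, H1 there is a tight `X` with `p ∈ X`,
`v ∉ X`, `X = {p}` or `Xᶜ = {v}`; in the second case `x v = -n` is even, impossible; so `{p} ∈ L`, `x p = n`, and
`dn L p = {p}`, so `p = f i` for some `i` (by `hf`). Let `τ v = univ.filter (fun i => f i ∈ (dn L v).erase v)`. For
`v ≠ w` odd and negative: `v ∉ dn L w` (otherwise `v ∈ (dn L w).erase w` and `{v} ∈ L` with `x v = n`, even) and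
symmetrically, so by H3 there is `p ∈ (dn L v).erase v` with `p ∉ dn L w`; `p = f i`, so `i ∈ τ v`, `i ∉ τ w`. Hence `τ` is
injective on these points and the image is an antichain of subsets of `Fin s`: Sperner's theorem
(`IsAntichain.sperner`) . -/
theorem neg_card {L : Finset (Finset V)} {n : ℤ} (hn : 2 ∣ n) {x : V → ℤ} (h0 : ∑ v, x v = 0)
    (h : Fin3 L n x) {s : ℕ} (f : Fin s → V) (hf : ∀ v, ∃ i, f i ∈ dn L v) :
    ((od x).filter fun v => x v < 0).card ≤ s.choose (s / 2) := by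
  have key : ∀ v, ¬ (2 : ℤ) ∣ x v → ∀ p ∈ (dn L v).erase v, x p = n ∧ ∃ i, f i = p := by
    intro v hv p hp
    obtain ⟨hpv, hp1⟩ := mem_erase.1 hp
    obtain ⟨X, hX, h1, h2, h3⟩ := h.H2 p v hp1 hpv
    have h4 : X ≠ univ := by
      rintro rfl
      exact h2 (mem_univ _)
    rcases h.H1 X hX ⟨p, h1⟩ h4 h3 with h5 | h5
    · have h6 : X = {p} := by
        refine Subset.antisymm (fun y hy => mem_singleton.2 ?_) (singleton_subset_iff.2 h1)
        exact card_le_one.1 h5 y hy p h1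
      rw [h6, sum_singleton] at h3
      refine ⟨h3, ?_⟩
      obtain ⟨i, hi⟩ := hf p
      refine ⟨i, ?_⟩
      have h7 := dn_sub hX h1 hi
      rw [h6] at h7
      exact mem_singleton.1 h7
    · exfalso
      have h6 : Xᶜ = {v} := by
        refine Subset.antisymm (fun y hy => mem_singleton.2 ?_)
          (singleton_subset_iff.2 (mem_compl.2 h2))
        exact card_le_one.1 h5 y hy v (mem_compl.2 h2)
      rw [Term_sum_compl h0, h6, sum_singleton] at h3
      apply hv
      have h7 : x v = - n := by linarith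
      rw [h7]
      exact (dvd_neg).2 hn
  obtain ⟨τ, hτ⟩ : ∃ τ : V → Finset (Fin s),
      τ = fun v => univ.filter fun i => f i ∈ (dn L v).erase v := ⟨_, rfl⟩
  have hmem : ∀ v i, i ∈ τ v ↔ f i ∈ (dn L v).erase v := by
    intro v i
    rw [hτ, mem_filter]
    exact ⟨And.right, fun h => ⟨mem_univ _, h⟩⟩
  obtain ⟨A, hA⟩ : ∃ A, A = (od x).filter fun v => x v < 0 := ⟨_, rfl⟩
  have hA1 : ∀ v ∈ A, ¬ (2 : ℤ) ∣ x v ∧ x v < 0 := by
    intro v hv
    rw [hA, mem_filter, mem_od] at hv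
    exact hv
  have hinc : ∀ v ∈ A, ∀ w ∈ A, v ≠ w → v ∉ dn L w := by
    intro v hv w hw hvw h1
    obtain ⟨h2, -⟩ := key w (hA1 w hw).1 v (mem_erase.2 ⟨hvw, h1⟩)
    apply (hA1 v hv).1
    rw [h2]
    exact hn
  have hanti : ∀ v ∈ A, ∀ w ∈ A, v ≠ w → ¬ τ v ⊆ τ w := by
    intro v hv w hw hvw hsub
    have h1 := h.H3 v w (hA1 v hv).2.le (hinc v hv w hw hvw) (hinc w hw v hv hvw.symm)
    apply h1
    intro p hp
    obtain ⟨-, i, rfl⟩ := key v (hA1 v hv).1 p hp
    have h2 := hsub ((hmem v i).2 hp)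
    exact mem_of_mem_erase ((hmem w i).1 h2)
  have hinj : Set.InjOn τ A := by
    intro v hv w hw hvw
    by_contra hne
    exact hanti v hv w hw hne hvw.subset
  rw [← hA, ← card_image_of_injOn hinj]
  have hac : IsAntichain (· ⊆ ·) (SetLike.coe (A.image τ)) := by
    intro a ha b hb hab hsub
    obtain ⟨v, hv, rfl⟩ := mem_image.1 (mem_coe.1 ha)
    obtain ⟨w, hw, rfl⟩ := mem_image.1 (mem_coe.1 hb)
    refine hanti v hv w hw ?_ hsub
    rintro rfl
    exact hab rfl
  have h1 := hac.sperner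
  rwa [Fintype.card_fin] at h1

/-- PROOF. `neg_card` for `L` and for `cp L`, `-x` (`Fin3.cp`); odd numbers are negative or positive. -/
theorem od_card {L : Finset (Finset V)} {n : ℤ} (hn : 2 ∣ n) {x : V → ℤ} (h0 : ∑ v, x v = 0)
    (h : Fin3 L n x) {s t : ℕ} (f : Fin s → V) (hf : ∀ v, ∃ i, f i ∈ dn L v) (g : Fin t → V)
    (hg : ∀ v, ∃ i, v ∈ dn L (g i)) : (od x).card ≤ s.choose (s / 2) + t.choose (t / 2) := by
  have h1 := neg_card hn h0 h f hf
  have h2 := neg_card hn (by rw [sum_neg_distrib, h0, neg_zero]) (h.cp h0) g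
    (fun v => by
      obtain ⟨i, hi⟩ := hg v
      exact ⟨i, mem_dn_cp.2 hi⟩)
  have h3 : od x ⊆ ((od x).filter fun v => x v < 0) ∪
      ((od fun v => - x v).filter fun v => - x v < 0) := by
    intro v hv
    rw [mem_od] at hv
    rw [mem_union, mem_filter, mem_filter, mem_od, mem_od, dvd_neg]
    rcases lt_trichotomy (x v) 0 with h4 | h4 | h4
    · exact Or.inl ⟨hv, h4⟩
    · exfalso
      apply hv
      rw [h4]
      exact dvd_zero _
    · exact Or.inr ⟨hv, by linarith⟩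
  exact (card_le_card h3).trans ((card_union_le _ _).trans (add_le_add h1 h2))

end Pool.Agent.Dj3
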