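import Pool.Agent.H.MP_3adc02_co.fs.Qt
import Pool.Agent.H.MP_3adc02_co.fs.Glue
import Pool.Agent.H.MP_3adc02_co.fs.Rel
import Pool.Agent.H.MP_3adc02_co.fs.Term
import Pool.Agent.H.MP_3adc02_co.fs.Base

/-!
# Few sources and sinks, module Main: the induction
-/

set_option linter.unusedSectionVars false

namespace Pool.Agent.Dj3

open Finset Pool.Agent.Dj Pool.Agent.Dj2

theorem dn_anti {V : Type} [Fintype V] [DecidableEq V] {L L' : Finset (Finset V)} (h : L' ⊆ L)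
    (v : V) : dn L v ⊆ dn L' v := fun _ hu => mem_dn.2 fun X hX hv => mem_dn.1 hu X (h hX) hv

/-- PROOF. Lexicographic induction on `L.card`, `Fintype.card V`, `(ms L x).toNat`. -/
theorem main (a k : ℕ) (hk : 2 ^ a ≤ k) (s t : ℕ)
    (hst : s.choose (s / 2) + t.choose (t / 2) ≤ 2 ^ (a + 2) + 1) :
    ∀ (N M P : ℕ) (V : Type) [Fintype V] [DecidableEq V] (L : Finset (Finset V)) (x : V → ℤ),
      L.card ≤ N → Fintype.card V ≤ M → (ms L x).toNat ≤ P → Rg L → Fr L (2 * k) x →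
      ∀ f : Fin s → V, (∀ v, ∃ i, f i ∈ dn L v) → ∀ g : Fin t → V, (∀ v, ∃ i, v ∈ dn L (g i)) →
      Gr L (2 * k) x := by
  intro N
  induction N using Nat.strong_induction_on with
  | _ N ihN =>
  intro M
  induction M using Nat.strong_induction_on with
  | _ M ihM =>
  intro P
  induction P using Nat.strong_induction_on with
  | _ P ihP =>
  intro V _ _ L x hN hM hP hL hx f hf g hg
  have hn : (2 : ℤ) ∣ 2 * (k : ℤ) := dvd_mul_right _ _
  have sub : ∀ L' : Finset (Finset V), L' ⊆ L → L'.card < L.card → Rg L' → Gr L' (2 * k) x := by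
    intro L' hsub hc hL'
    refine ihN L'.card (lt_of_lt_of_le hc hN) (Fintype.card V) (ms L' x).toNat V L' x le_rfl
      le_rfl le_rfl hL' ⟨hx.1, fun X hX => hx.2 X (hsub hX)⟩ f (fun v => ?_) g (fun v => ?_)
    · obtain ⟨i, hi⟩ := hf v
      exact ⟨i, dn_anti hsub v hi⟩
    · obtain ⟨i, hi⟩ := hg v
      exact ⟨i, dn_anti hsub _ hi⟩
  by_cases hs : Dj2.Sep L
  swap
  · obtain ⟨V', _, _, π, L', x', h1, h2, h3, h4, h5, h6, h7⟩ := quot L hL hs (2 * k) x hx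
    refine h7 (ihM (Fintype.card V') (lt_of_lt_of_le h1 hM) (ms L' x').toNat V' L' x'
      (h3.trans hN) le_rfl le_rfl h2 h4 (fun i => π (f i)) (fun q => ?_) (fun i => π (g i))
      (fun q => ?_))
    · obtain ⟨v, rfl⟩ := h6 q
      obtain ⟨i, hi⟩ := hf v
      exact ⟨i, h5 _ _ hi⟩
    · obtain ⟨v, rfl⟩ := h6 q
      obtain ⟨i, hi⟩ := hg v
      exact ⟨i, h5 _ _ hi⟩
  by_cases c1 : ∃ X ∈ L, X.Nonempty ∧ X ≠ univ ∧ ∑ v ∈ X, x v = 2 * k ∧ 2 ≤ X.card ∧ 2 ≤ Xᶜ.card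
  · obtain ⟨X, hX, h1, h2, h3, h4, h5⟩ := c1
    exact glue hL hn hx hX h1 h2 h3 (sub _ (filter_subset _ _) (gA_card hs h5) (rg_gA hL X))
      (sub _ (filter_subset _ _) (gB_card hs h4) (rg_gB hL X))
  by_cases c2 : ∃ p q, p ∈ dn L q ∧ p ≠ q ∧
      ∀ X ∈ L, X.Nonempty → X ≠ univ → p ∈ X → q ∉ X → ∑ v ∈ X, x v ≠ 2 * k
  · obtain ⟨p, q, h1, h2, h3⟩ := c2
    have hx' := fr_mv hx h1 h3
    have h4 := ms_mv hs x h1 h2
    have h5 := ms_nonneg (by positivity) hx'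
    refine gr_mv h1 (ihP (ms L (mv x p q)).toNat (lt_of_lt_of_le ?_ hP) V L (mv x p q) hN hM
      le_rfl hL hx' f hf g hg)
    omega
  by_cases c3 : ∃ u w, x u ≤ 0 ∧ u ∉ dn L w ∧ w ∉ dn L u ∧ (dn L u).erase u ⊆ dn L w
  · obtain ⟨u, w, h1, h2, h3, h4⟩ := c3
    exact gr_rl hL hs hn hx h1 h4 h2 h3 (sub _ (filter_subset _ _) (rl_card hL h2) (rg_rl hL u w))
  by_cases c4 : ∃ u w, 0 ≤ x u ∧ w ∉ dn L u ∧ u ∉ dn L w ∧
      (dn (cp L) u).erase u ⊆ dn (cp L) w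
  · obtain ⟨u, w, h1, h2, h3, h4⟩ := c4
    have hcL := rg_cp hL
    have hu : u ∉ dn (cp L) w := fun h => h2 (mem_dn_cp.1 h)
    have hw : w ∉ dn (cp L) u := fun h => h3 (mem_dn_cp.1 h)
    have hsub : cp (rl (cp L) u w) ⊆ L := by
      intro X hX
      have h5 := (mem_filter.1 (mem_cp.1 hX)).1
      have h6 := mem_cp.1 h5
      rwa [compl_compl] at h6
    have hcard : (cp (rl (cp L) u w)).card < L.card := by
      rw [card_cp, ← card_cp L]
      exact rl_card hcL hu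
    have h7 := sub _ hsub hcard (rg_cp (rg_rl hcL u w))
    have h8 : Gr (rl (cp L) u w) (2 * k) (fun v => - x v) := by
      refine gr_cp (by rw [Finset.sum_neg_distrib, hx.1, neg_zero]) ?_
      simp only [neg_neg]
      exact h7
    exact gr_cp hx.1 (gr_rl hcL (sep_cp hs) hn (fr_cp hx) (by simpa using h1) h4 hu hw h8)
  have hF : Fin3 L (2 * k) x := by
    refine ⟨fun X hX h1 h2 h3 => ?_, fun p q h1 h2 => ?_, fun u w h1 h2 h3 h4 => ?_,
      fun u w h1 h2 h3 h4 => ?_⟩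
    · by_contra hc
      exact c1 ⟨X, hX, h1, h2, h3, by omega, by omega⟩
    · by_contra hc
      refine c2 ⟨p, q, h1, h2, fun X hX h3 h4 h5 h6 h7 => hc ⟨X, hX, h5, h6, h7⟩⟩
    · exact c3 ⟨u, w, h1, h2, h3, h4⟩
    · exact c4 ⟨u, w, h1, h2, h3, h4⟩
  exact base hL hs a k hk hx ((od_card hn hx.1 hF f hf g hg).trans hst)

end Pool.Agent.Dj3
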