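import Pool.Agent.H.MP_3adc02_co.fs.Def

/-!
# Few sources and sinks, module Qt: the quotient which separates points
-/

set_option linter.unusedSectionVars false

namespace Pool.Agent.Dj3

open Finset Pool.Agent.Dj Pool.Agent.Dj2

variable {V : Type} [Fintype V] [DecidableEq V]

/-- PROOF. As in helper68/Quo2.lean: `V'` is the quotient of `V` by the relation `Sm L` (Fintype, DecidableEq by
choice), `π` the projection, `L' = L.image (fun U => U.image π)`, `x' q = ∑ v with π v = q, x v`. For `U ∈ L`: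
`π v ∈ U.image π ↔ v ∈ U`. `L` is not separating, so `π` is not injective (surjective, so the cardinal drops).
`∑ q ∈ U.image π, x' q = ∑ v ∈ U, x v` (`Finset.sum_fiberwise_of_maps_to`). For the last part lift a list `G'` of
pairs of `V'` by a section of `π`: `ls (G'.map (σ × σ)) U = ls G' (U.image π)`. -/
theorem quot (L : Finset (Finset V)) (hL : Rg L) (hs : ¬ Sep L) (n : ℤ) (x : V → ℤ) (hx : Fr L n x) :
    ∃ (V' : Type) (_ : Fintype V') (_ : DecidableEq V') (π : V → V') (L' : Finset (Finset V'))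
      (x' : V' → ℤ), Fintype.card V' < Fintype.card V ∧ Rg L' ∧ L'.card ≤ L.card ∧ Fr L' n x' ∧
      (∀ u v, u ∈ dn L v → π u ∈ dn L' (π v)) ∧ Function.Surjective π ∧
      (Gr L' n x' → Gr L n x) := by
  classical
  let s : Setoid V := ⟨Sm L, ⟨sm_refl _, fun h => sm_symm h, fun h h' => sm_trans h h'⟩⟩
  let ft : Fintype (Quotient s) := Fintype.ofFinite _
  let de : DecidableEq (Quotient s) := Classical.decEq _
  let π : V → Quotient s := fun v => Quotient.mk s v
  have hπ : ∀ u v, π u = π v → Sm L u v := fun u v h => Quotient.exact h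
  have hsurj : Function.Surjective π := fun q => Quotient.exists_rep q
  have hmem : ∀ U ∈ L, ∀ v, π v ∈ U.image π ↔ v ∈ U := by
    intro U hU v
    rw [mem_image]
    constructor
    · rintro ⟨u, hu, huv⟩
      exact (hπ u v huv U hU).1 hu
    · exact fun hv => ⟨v, hv, rfl⟩
  obtain ⟨x', hx'⟩ : ∃ x' : Quotient s → ℤ, ∀ q, x' q = ∑ v ∈ univ.filter (fun v => π v = q), x v :=
    ⟨fun q => ∑ v ∈ univ.filter (fun v => π v = q), x v, fun _ => rfl⟩
  have hsum : ∀ U ∈ L, ∑ q ∈ U.image π, x' q = ∑ v ∈ U, x v := by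
    intro U hU
    rw [← Finset.sum_fiberwise_of_maps_to (s := U) (t := U.image π) (g := π)
      (fun v hv => mem_image_of_mem π hv) x]
    refine Finset.sum_congr rfl fun q hq => ?_
    rw [hx']
    refine Finset.sum_congr ?_ fun _ _ => rfl
    ext v
    rw [mem_filter, mem_filter]
    constructor
    · rintro ⟨-, hv⟩
      refine ⟨(hmem U hU v).1 ?_, hv⟩
      rw [hv]
      exact hq
    · rintro ⟨-, hv⟩
      exact ⟨mem_univ _, hv⟩
  have htop : (univ : Finset V).image π = univ := by
    rw [eq_univ_iff_forall]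
    intro q
    obtain ⟨v, rfl⟩ := hsurj q
    exact mem_image_of_mem π (mem_univ v)
  have hne : ∀ X ∈ L, X.image π ≠ univ → X ≠ univ := by
    intro X _ h h1
    exact h (by rw [h1, htop])
  refine ⟨Quotient s, ft, de, π, L.image (fun U => U.image π), x', ?_, ?_, Finset.card_image_le,
    ?_, ?_, hsurj, ?_⟩
  · refine Fintype.card_lt_of_surjective_not_injective π hsurj fun hinj => hs fun u v huv => ?_
    exact hinj (Quotient.sound huv)
  · refine ⟨?_, ?_, ?_, ?_⟩
    · exact mem_image.2 ⟨∅, hL.bot, Finset.image_empty _⟩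
    · exact mem_image.2 ⟨univ, hL.top, htop⟩
    · intro X' hX' Y' hY'
      obtain ⟨X, hX, rfl⟩ := mem_image.1 hX'
      obtain ⟨Y, hY, rfl⟩ := mem_image.1 hY'
      refine mem_image.2 ⟨X ∩ Y, hL.cap X hX Y hY, ?_⟩
      ext q
      obtain ⟨v, rfl⟩ := hsurj q
      rw [mem_inter, hmem _ (hL.cap X hX Y hY), hmem X hX, hmem Y hY, mem_inter]
    · intro X' hX' Y' hY'
      obtain ⟨X, hX, rfl⟩ := mem_image.1 hX'
      obtain ⟨Y, hY, rfl⟩ := mem_image.1 hY'
      exact mem_image.2 ⟨X ∪ Y, hL.cup X hX Y hY, Finset.image_union _ _⟩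
  · refine ⟨?_, ?_⟩
    · have h1 := hsum univ hL.top
      rw [htop] at h1
      rw [h1]
      exact hx.1
    · intro X' hX' h1 h2
      obtain ⟨X, hX, rfl⟩ := mem_image.1 hX'
      rw [hsum X hX]
      exact hx.2 X hX (Finset.image_nonempty.1 h1) (hne X hX h2)
  · intro u v h
    rw [mem_dn] at h ⊢
    intro X' hX' hv
    obtain ⟨X, hX, rfl⟩ := mem_image.1 hX'
    exact (hmem X hX u).2 (h X hX ((hmem X hX v).1 hv))
  · rintro ⟨G', h1, h2⟩
    obtain ⟨σ, hσ⟩ : ∃ σ : Quotient s → V, ∀ q, π (σ q) = q :=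
      ⟨Function.surjInv hsurj, Function.surjInv_eq hsurj⟩
    have hind : ∀ X ∈ L, ∀ q, ind X (σ q) = ind (X.image π) q := by
      intro X hX q
      have h3 := hmem X hX (σ q)
      rw [hσ] at h3
      unfold ind
      by_cases h4 : σ q ∈ X
      · rw [if_pos h4, if_pos (h3.2 h4)]
      · rw [if_neg h4, if_neg fun h5 => h4 (h3.1 h5)]
    have hls : ∀ X ∈ L, ls (G'.map fun e => (σ e.1, σ e.2)) X = ls G' (X.image π) := by
      intro X hX
      unfold ls
      rw [List.map_map]
      congr 1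
      refine List.map_congr_left fun e _ => ?_
      show |ind X (σ e.1) - ind X (σ e.2)| = _
      rw [hind X hX, hind X hX]
    refine ⟨G'.map fun e => (σ e.1, σ e.2), fun X hX => ?_, fun X hX h3 h4 => ?_⟩
    · rw [hls X hX, ← hsum X hX]
      exact h1 _ (mem_image_of_mem _ hX)
    · rw [hls X hX, ← hsum X hX]
      refine h2 _ (mem_image_of_mem _ hX) (h3.image π) fun h5 => h4 ?_
      rw [eq_univ_iff_forall]
      intro v
      rw [← hmem X hX v, h5]
      exact mem_univ _

end Pool.Agent.Dj3
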